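import Mathlib

open Set Filter Topology

noncomputable section

namespace Pool.Agent.Results.MP_4aedba_al.NonCompleteMaximal

/-- A ring topology on a ring: subtraction and multiplication are continuous. -/
def IsRingTopology {R : Type} [Ring R] (t : TopologicalSpace R) : Prop :=
  (@Continuous (R × R) R (@instTopologicalSpaceProd R R t t) t fun p => p.1 - p.2) ∧
  (@Continuous (R × R) R (@instTopologicalSpaceProd R R t t) t fun p => p.1 * p.2)

/-- A maximal ring topology: a non-discrete Hausdorff ring topology such that no non-discrete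
Hausdorff ring topology is strictly finer.  (In Mathlib `s ≤ t` means that `s` is finer than `t`
and `⊥` is the discrete topology.) -/
def IsMaximalRingTopology {R : Type} [Ring R] (t : TopologicalSpace R) : Prop :=
  IsRingTopology t ∧ @T2Space R t ∧ t ≠ ⊥ ∧
    ∀ s : TopologicalSpace R, IsRingTopology s → @T2Space R s → s ≠ ⊥ → s ≤ t → s = t

/-- Completeness for the additive uniformity: every Cauchy filter converges. -/
def IsCompleteRingTopology {R : Type} [Ring R] (t : TopologicalSpace R) : Prop :=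
  ∀ F : Filter R, F.NeBot →
    (∀ U ∈ @nhds R t 0, ∃ A ∈ F, ∀ x ∈ A, ∀ y ∈ A, x - y ∈ U) → ∃ x, F ≤ @nhds R t x

theorem isTopologicalRing {R : Type} [Ring R] (t : TopologicalSpace R)
    (h : IsRingTopology t) : @IsTopologicalRing R t _ := by
  letI := t
  have hsub : Continuous fun p : R × R => p.1 - p.2 := h.1
  have hneg : Continuous fun x : R => -x := by
    have := hsub.comp (continuous_const.prodMk continuous_id : Continuous fun x : R => ((0 : R), x))
    simpa [Function.comp_def] using this
  exact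
    { continuous_add := by
        have := hsub.comp (continuous_fst.prodMk (hneg.comp continuous_snd) :
          Continuous fun p : R × R => (p.1, - p.2))
        simpa [Function.comp_def] using this
      continuous_neg := hneg
      continuous_mul := h.2 }

theorem isRingTopology {R : Type} [Ring R] (t : TopologicalSpace R)
    (h : @IsTopologicalRing R t _) : IsRingTopology t := by
  letI := t
  exact ⟨continuous_fst.sub continuous_snd, continuous_fst.mul continuous_snd⟩

/-- every non-discrete ring topology has a finer maximal one among non-discrete ring topologies -/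
theorem exists_maximal {R : Type} [Ring R] (t₀ : TopologicalSpace R)
    (h₀ : @IsTopologicalRing R t₀ _) (hT : @T2Space R t₀) (hd : t₀ ≠ ⊥) :
    ∃ t : TopologicalSpace R, t ≤ t₀ ∧ IsMaximalRingTopology t := by
  let τ₀ : RingTopology R := { toTopologicalSpace := t₀, toIsTopologicalRing := h₀ }
  have key : ∃ m : (RingTopology R)ᵒᵈ, OrderDual.toDual τ₀ ≤ m ∧
      Maximal (· ∈ {τ : (RingTopology R)ᵒᵈ | (OrderDual.ofDual τ).toTopologicalSpace ≠ ⊥}) m := by
    apply zorn_le_nonempty₀ {τ : (RingTopology R)ᵒᵈ | (OrderDual.ofDual τ).toTopologicalSpace ≠ ⊥}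
    · intro c hc hchain y hy
      let c' : Set (RingTopology R) := OrderDual.ofDual '' c
      refine ⟨OrderDual.toDual (sInf c'), ?_, ?_⟩
      · simp only [mem_setOf_eq, OrderDual.ofDual_toDual]
        have hs : (sInf c').toTopologicalSpace = sInf (RingTopology.toTopologicalSpace '' c') := rfl
        rw [hs]
        intro hbot
        have h1 : @nhds R (sInf (RingTopology.toTopologicalSpace '' c')) 0 = pure 0 := by
          rw [hbot]; exact @nhds_discrete R ⊥ (@DiscreteTopology.mk R ⊥ rfl) ▸ rfl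
        rw [nhds_sInf] at h1
        have h2 : ({0} : Set R) ∈ ⨅ t ∈ RingTopology.toTopologicalSpace '' c', @nhds R t 0 := by
          rw [h1]; exact Filter.mem_pure.2 rfl
        rw [mem_biInf_of_directed] at h2
        · obtain ⟨t, ⟨τ, ⟨τ', hτ', rfl⟩, rfl⟩, ht⟩ := h2
          apply hc hτ'
          letI := (OrderDual.ofDual τ').toTopologicalSpace
          haveI := (OrderDual.ofDual τ').toIsTopologicalRing
          have : DiscreteTopology R := by
            apply discreteTopology_of_isOpen_singleton_zero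
            rw [isOpen_iff_mem_nhds]
            intro x hx
            rw [Set.mem_singleton_iff] at hx
            subst hx
            exact ht
          exact this.eq_bot
        · rintro _ ⟨_, ⟨a, ha, rfl⟩, rfl⟩ _ ⟨_, ⟨b, hb, rfl⟩, rfl⟩
          rcases hchain.total ha hb with h | h
          · exact ⟨_, ⟨_, ⟨b, hb, rfl⟩, rfl⟩, nhds_mono h, le_rfl⟩
          · exact ⟨_, ⟨_, ⟨a, ha, rfl⟩, rfl⟩, le_rfl, nhds_mono h⟩
        · exact ⟨_, _, ⟨y, hy, rfl⟩, rfl⟩
      · intro z hz
        show sInf c' ≤ OrderDual.ofDual z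
        exact sInf_le ⟨z, hz, rfl⟩
    · exact hd
  obtain ⟨m, hm1, hm2⟩ := key
  have hle : (OrderDual.ofDual m).toTopologicalSpace ≤ t₀ := hm1
  refine ⟨(OrderDual.ofDual m).toTopologicalSpace, hle,
    isRingTopology _ (OrderDual.ofDual m).toIsTopologicalRing, ?_, hm2.1, ?_⟩
  · exact t2Space_antitone hle hT
  · intro s hs _ hsd hsm
    let σ : RingTopology R := { toTopologicalSpace := s, toIsTopologicalRing := isTopologicalRing s hs }
    have h3 : m ≤ OrderDual.toDual σ := hsm
    have h4 := hm2.2 (y := OrderDual.toDual σ) hsd h3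
    exact le_antisymm hsm h4

/-! ### The ring -/

/-- a vector space of countable dimension over the field with two elements -/
abbrev V : Type := ℕ →₀ ZMod 2

/-- The ring of triangular matrices `(a v; 0 c)` with `a` a linear operator on `V`, `v` a vector
and `c` a scalar. -/
@[ext] structure Tri : Type where
  a : Module.End (ZMod 2) V
  v : V
  c : ZMod 2

namespace Tri

instance : Zero Tri := ⟨⟨0, 0, 0⟩⟩
instance : One Tri := ⟨⟨1, 0, 1⟩⟩
instance : Add Tri := ⟨fun x y => ⟨x.a + y.a, x.v + y.v, x.c + y.c⟩⟩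
instance : Neg Tri := ⟨fun x => ⟨-x.a, -x.v, -x.c⟩⟩
instance : Mul Tri := ⟨fun x y => ⟨x.a * y.a, x.a y.v + y.c • x.v, x.c * y.c⟩⟩

@[simp] theorem zero_a : (0 : Tri).a = 0 := rfl
@[simp] theorem zero_v : (0 : Tri).v = 0 := rfl
@[simp] theorem zero_c : (0 : Tri).c = 0 := rfl
@[simp] theorem one_a : (1 : Tri).a = 1 := rfl
@[simp] theorem one_v : (1 : Tri).v = 0 := rfl
@[simp] theorem one_c : (1 : Tri).c = 1 := rfl
@[simp] theorem add_a (x y : Tri) : (x + y).a = x.a + y.a := rfl
@[simp] theorem add_v (x y : Tri) : (x + y).v = x.v + y.v := rfl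
@[simp] theorem add_c (x y : Tri) : (x + y).c = x.c + y.c := rfl
@[simp] theorem neg_a (x : Tri) : (-x).a = -x.a := rfl
@[simp] theorem neg_v (x : Tri) : (-x).v = -x.v := rfl
@[simp] theorem neg_c (x : Tri) : (-x).c = -x.c := rfl
@[simp] theorem mul_a (x y : Tri) : (x * y).a = x.a * y.a := rfl
@[simp] theorem mul_v (x y : Tri) : (x * y).v = x.a y.v + y.c • x.v := rfl
@[simp] theorem mul_c (x y : Tri) : (x * y).c = x.c * y.c := rfl

instance : Ring Tri where
  add_assoc x y z := by ext1 <;> simp [add_assoc]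
  zero_add x := by ext1 <;> simp
  add_zero x := by ext1 <;> simp
  add_comm x y := by ext1 <;> simp [add_comm]
  neg_add_cancel x := Tri.ext (neg_add_cancel x.a) (neg_add_cancel x.v) (neg_add_cancel x.c)
  nsmul := nsmulRec
  zsmul := zsmulRec
  mul_assoc x y z := by
    ext1
    · simp [mul_assoc]
    · simp only [mul_v, mul_a, mul_c, map_add, map_smul, smul_add, smul_smul, Module.End.mul_apply]
      rw [mul_comm z.c y.c, add_assoc]
    · simp [mul_assoc]
  one_mul x := by ext1 <;> simp
  mul_one x := by ext1 <;> simp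
  left_distrib x y z := by
    ext1
    · simp [mul_add]
    · simp only [mul_v, add_v, add_c, map_add, add_smul]; abel
    · simp [mul_add]
  right_distrib x y z := by
    ext1
    · simp [add_mul]
    · simp only [mul_v, add_v, add_a, smul_add, LinearMap.add_apply]; abel
    · simp [add_mul]
  zero_mul x := by ext1 <;> simp
  mul_zero x := by ext1 <;> simp

theorem sub_a (x y : Tri) : (x - y).a = x.a - y.a := (sub_eq_add_neg x.a y.a).symm
theorem sub_v (x y : Tri) : (x - y).v = x.v - y.v := (sub_eq_add_neg x.v y.v).symm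
theorem sub_c (x y : Tri) : (x - y).c = x.c - y.c := (sub_eq_add_neg x.c y.c).symm

/-- the embedding of `V` as an ideal -/
def inc (v : V) : Tri := ⟨0, v, 0⟩

@[simp] theorem inc_a (v : V) : (inc v).a = 0 := rfl
@[simp] theorem inc_v (v : V) : (inc v).v = v := rfl
@[simp] theorem inc_c (v : V) : (inc v).c = 0 := rfl

theorem inc_add (v w : V) : inc (v + w) = inc v + inc w := by ext1 <;> simp
theorem inc_neg (v : V) : inc (-v) = -inc v :=
  Tri.ext (neg_zero (G := Module.End (ZMod 2) V)).symm rfl (neg_zero (G := ZMod 2)).symm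
theorem inc_sub (v w : V) : inc (v - w) = inc v - inc w := by
  rw [sub_eq_add_neg v w, sub_eq_add_neg (inc v), inc_add, inc_neg]
theorem inc_zero : inc 0 = 0 := rfl

/-- the operator `g` as an element of the ring -/
def op (g : Module.End (ZMod 2) V) : Tri := ⟨g, 0, 0⟩

theorem op_mul_inc (g : Module.End (ZMod 2) V) (v : V) : op g * inc v = inc (g v) := by
  ext1 <;> simp [op]

/-- basic neighbourhoods of zero -/
def B (s : Finset (Module.Dual (ZMod 2) V)) : AddSubgroup Tri where
  carrier := {x | x.a = 0 ∧ x.c = 0 ∧ ∀ φ ∈ s, φ x.v = 0}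
  zero_mem' := by simp
  add_mem' := by
    rintro x y ⟨h1, h2, h3⟩ ⟨k1, k2, k3⟩
    refine ⟨by simp [h1, k1], by simp [h2, k2], fun φ hφ => ?_⟩
    simp [h3 φ hφ, k3 φ hφ]
  neg_mem' := by
    rintro x ⟨h1, h2, h3⟩
    refine ⟨by rw [neg_a, h1]; exact neg_zero (G := Module.End (ZMod 2) V),
      by rw [neg_c, h2]; exact neg_zero (G := ZMod 2), fun φ hφ => ?_⟩
    rw [neg_v, map_neg, h3 φ hφ, neg_zero]

theorem mem_B {s : Finset (Module.Dual (ZMod 2) V)} {x : Tri} :
    x ∈ B s ↔ x.a = 0 ∧ x.c = 0 ∧ ∀ φ ∈ s, φ x.v = 0 := Iff.rfl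

theorem basis : RingSubgroupsBasis B where
  inter s t := by
    classical
    refine ⟨s ∪ t, fun x hx => ⟨⟨hx.1, hx.2.1, fun φ hφ => ?_⟩, ⟨hx.1, hx.2.1, fun φ hφ => ?_⟩⟩⟩
    · exact hx.2.2 φ (Finset.mem_union_left _ hφ)
    · exact hx.2.2 φ (Finset.mem_union_right _ hφ)
  mul s := by
    refine ⟨s, ?_⟩
    rintro _ ⟨x, hx, y, hy, rfl⟩
    obtain ⟨h1, h2, h3⟩ := hx
    obtain ⟨k1, k2, k3⟩ := hy
    refine ⟨by simp [h1], by simp [h2], fun φ hφ => ?_⟩
    simp [h1, k2]
  leftMul x s := by
    classical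
    refine ⟨s.image fun φ => φ ∘ₗ x.a, ?_⟩
    rintro y ⟨k1, k2, k3⟩
    refine ⟨by simp [k1], by simp [k2], fun φ hφ => ?_⟩
    have := k3 (φ ∘ₗ x.a) (Finset.mem_image_of_mem _ hφ)
    simp only [LinearMap.comp_apply] at this
    simp [k2, this]
  rightMul x s := by
    refine ⟨s, ?_⟩
    rintro y ⟨k1, k2, k3⟩
    refine ⟨by simp [k1], by simp [k2], fun φ hφ => ?_⟩
    simp [k1, k3 φ hφ]

end Tri

open Tri

theorem t2_top : @T2Space Tri basis.topology := by
  letI := (basis.topology : TopologicalSpace Tri)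
  haveI : IsTopologicalRing Tri := basis.toRingFilterBasis.isTopologicalRing
  apply IsTopologicalAddGroup.t2Space_of_zero_sep
  intro x hx
  classical
  by_cases h : x.a = 0 ∧ x.c = 0
  · have hv : x.v ≠ 0 := fun hv => hx (Tri.ext h.1 hv h.2)
    obtain ⟨i, hi⟩ : ∃ i, x.v i ≠ 0 := by
      by_contra hcon
      push Not at hcon
      exact hv (Finsupp.ext hcon)
    refine ⟨B {Finsupp.lapply i}, basis.hasBasis_nhds_zero.mem_of_mem trivial, ?_⟩
    intro hmem
    have := hmem.2.2 (Finsupp.lapply i) (Finset.mem_singleton_self _)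
    exact hi this
  · refine ⟨B ∅, basis.hasBasis_nhds_zero.mem_of_mem trivial, ?_⟩
    intro hmem
    exact h ⟨hmem.1, hmem.2.1⟩

theorem not_bot : (basis.topology : TopologicalSpace Tri) ≠ ⊥ := by
  intro h
  have h0 : ({0} : Set Tri) ∈ @nhds Tri basis.topology 0 := by
    rw [h]
    letI : TopologicalSpace Tri := ⊥
    haveI : DiscreteTopology Tri := ⟨rfl⟩
    exact mem_nhds_discrete.2 rfl
  obtain ⟨s, -, hs⟩ := basis.hasBasis_nhds_zero.mem_iff.1 h0
  let F : V →ₗ[ZMod 2] (s → ZMod 2) := LinearMap.pi fun φ => (φ : Module.Dual (ZMod 2) V)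
  have hninj : ¬ Function.Injective F := by
    intro hinj
    exact (Finite.of_injective F hinj).false
  obtain ⟨v, hv, hv0⟩ : ∃ v, F v = 0 ∧ v ≠ 0 := by
    by_contra hcon
    push Not at hcon
    exact hninj ((injective_iff_map_eq_zero F).2 hcon)
  have : inc v ∈ ({0} : Set Tri) := hs ⟨rfl, rfl, fun φ hφ => congrFun hv ⟨φ, hφ⟩⟩
  exact hv0 (congrArg Tri.v this)

/-- if the complement of `W` contains translates of all finite sets, some operator maps every
nonzero vector outside `W` -/
theorem exists_op (W : Set V) (h : ∀ F : Finset V, ∃ v : V, ∀ f ∈ F, f + v ∉ W) :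
    ∃ g : Module.End (ZMod 2) V, ∀ v, v ≠ 0 → g v ∉ W := by
  classical
  choose pick hpick using h
  let T : ℕ → Finset V := fun n =>
    Nat.rec {0} (fun _ T => T ∪ T.image (fun x => x + pick T)) n
  have hTs : ∀ n, T (n + 1) = T n ∪ (T n).image (fun x => x + pick (T n)) := fun n => rfl
  let b : ℕ → V := fun n => pick (T n)
  let g : V →ₗ[ZMod 2] V := Finsupp.linearCombination (ZMod 2) b
  have key : ∀ n (v : V), (∀ i, n ≤ i → v i = 0) → g v ∈ T n ∧ (v ≠ 0 → g v ∉ W) := by
    intro n
    induction n with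
    | zero =>
      intro v hv
      have : v = 0 := Finsupp.ext fun i => hv i (Nat.zero_le i)
      subst this
      exact ⟨by rw [map_zero]; exact Finset.mem_singleton_self _, fun h => absurd rfl h⟩
    | succ n ih =>
      intro v hv
      by_cases hn : v n = 0
      · have h1 : ∀ i, n ≤ i → v i = 0 := by
          intro i hi
          rcases Nat.eq_or_lt_of_le hi with h | h
          · rw [← h]; exact hn
          · exact hv i h
        obtain ⟨h2, h3⟩ := ih v h1
        exact ⟨by rw [hTs]; exact Finset.mem_union_left _ h2, h3⟩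
      · have hn1 : v n = 1 := by
          have : ∀ z : ZMod 2, z ≠ 0 → z = 1 := by decide
          exact this _ hn
        let v' : V := v - Finsupp.single n 1
        have hv' : v = v' + Finsupp.single n 1 := (sub_add_cancel _ _).symm
        have h1 : ∀ i, n ≤ i → v' i = 0 := by
          intro i hi
          rcases Nat.eq_or_lt_of_le hi with h | h
          · subst h
            show v n - Finsupp.single n (1 : ZMod 2) n = 0
            rw [Finsupp.single_eq_same, hn1, sub_self]
          · show v i - Finsupp.single n (1 : ZMod 2) i = 0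
            rw [Finsupp.single_eq_of_ne (by omega), hv i h, sub_zero]
        obtain ⟨h2, -⟩ := ih v' h1
        have hg : g v = g v' + pick (T n) := by
          conv_lhs => rw [hv', map_add]
          congr 1
          show Finsupp.linearCombination (ZMod 2) b (Finsupp.single n 1) = b n
          rw [Finsupp.linearCombination_single, one_smul]
        refine ⟨?_, fun _ => ?_⟩
        · rw [hTs, hg]
          exact Finset.mem_union_right _ (Finset.mem_image_of_mem _ h2)
        · rw [hg]
          exact hpick (T n) _ h2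
  refine ⟨g, fun v hv => ?_⟩
  refine (key (v.support.sup id + 1) v ?_).2 hv
  intro i hi
  by_contra hne
  have : i ≤ v.support.sup id := Finset.le_sup (f := id) (Finsupp.mem_support_iff.2 hne)
  omega

theorem eq_bot_of_mem (t : TopologicalSpace Tri) (ht : @IsTopologicalRing Tri t _)
    (h : ({0} : Set Tri) ∈ @nhds Tri t 0) : t = ⊥ := by
  letI := t
  have : DiscreteTopology Tri := by
    apply discreteTopology_of_isOpen_singleton_zero
    rw [isOpen_iff_mem_nhds]
    intro x hx
    rw [Set.mem_singleton_iff] at hx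
    subst hx
    exact h
  exact this.eq_bot

theorem syndetic (t : TopologicalSpace Tri) (ht : @IsTopologicalRing Tri t _)
    (hB : (B ∅ : Set Tri) ∈ @nhds Tri t 0) (hd : t ≠ ⊥) (W : Set Tri)
    (hW : W ∈ @nhds Tri t 0) : ∃ F : Finset V, ∀ v : V, ∃ f ∈ F, inc (f + v) ∈ W := by
  by_contra hcon
  push Not at hcon
  obtain ⟨g, hg⟩ := exists_op {v | inc v ∈ W} hcon
  apply hd
  apply eq_bot_of_mem t ht
  letI := t
  have hcont : Continuous fun x : Tri => op g * x := continuous_const.mul continuous_id
  have h1 : (fun x : Tri => op g * x) ⁻¹' W ∈ 𝓝 (0 : Tri) := by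
    apply hcont.continuousAt.preimage_mem_nhds
    rw [mul_zero]
    exact hW
  filter_upwards [h1, hB] with x hx1 hx2
  have hx : x = inc x.v := Tri.ext hx2.1 rfl hx2.2.1
  by_contra hne
  have hv : x.v ≠ 0 := fun h0 => hne (by rw [hx, h0]; rfl)
  apply hg x.v hv
  show inc (g x.v) ∈ W
  rw [← op_mul_inc, ← hx]
  exact hx1

theorem exists_small (t : TopologicalSpace Tri) (ht : @IsTopologicalRing Tri t _) (U : Set Tri)
    (hU : U ∈ @nhds Tri t 0) : ∃ W ∈ @nhds Tri t 0, ∀ x ∈ W, ∀ y ∈ W, x - y ∈ U := by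
  letI := t
  exact exists_nhds_half_neg hU

theorem ultra_small (t : TopologicalSpace Tri) (ht : @IsTopologicalRing Tri t _)
    (hB : (B ∅ : Set Tri) ∈ @nhds Tri t 0) (hd : t ≠ ⊥) (f : Ultrafilter V) (U : Set Tri)
    (hU : U ∈ @nhds Tri t 0) :
    ∃ A ∈ Filter.map inc (f : Filter V), ∀ x ∈ A, ∀ y ∈ A, x - y ∈ U := by
  obtain ⟨W, hW, hWU⟩ := exists_small t ht U hU
  obtain ⟨F, hF⟩ := syndetic t ht hB hd W hW
  have hcov : (⋃ g ∈ (F : Set V), {v : V | inc (g + v) ∈ W}) ∈ f := by
    have : (⋃ g ∈ (F : Set V), {v : V | inc (g + v) ∈ W}) = Set.univ := by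
      ext v
      simp only [Finset.mem_coe, Set.mem_iUnion, Set.mem_univ, iff_true]
      obtain ⟨g, hg, hgv⟩ := hF v
      exact ⟨g, hg, hgv⟩
    rw [this]
    exact Filter.univ_mem
  rw [Ultrafilter.finite_biUnion_mem_iff F.finite_toSet] at hcov
  obtain ⟨g, -, hg⟩ := hcov
  refine ⟨inc '' {v : V | inc (g + v) ∈ W}, Filter.image_mem_map hg, ?_⟩
  rintro _ ⟨v, hv, rfl⟩ _ ⟨w, hw, rfl⟩
  have h5 : (g + v) - (g + w) = v - w := add_sub_add_left_eq_sub v w g
  rw [← inc_sub, ← h5, inc_sub]
  exact hWU _ hv _ hw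

theorem inc_mem_B (v : V) : inc v ∈ B ∅ :=
  ⟨rfl, rfl, fun φ hφ => absurd hφ (Finset.notMem_empty φ)⟩

theorem eq_inc_of_mem {x : Tri} {s} (hx : x ∈ B s) : x = inc x.v := Tri.ext hx.1 rfl hx.2.1

theorem limit_mem (t : TopologicalSpace Tri) (ht : @IsTopologicalRing Tri t _)
    (hB : (B ∅ : Set Tri) ∈ @nhds Tri t 0) (f : Ultrafilter V) (x : Tri)
    (hx : Filter.map inc (f : Filter V) ≤ @nhds Tri t x) : x ∈ B ∅ := by
  letI := t
  have h1 : (fun y => y - x) ⁻¹' (B ∅ : Set Tri) ∈ 𝓝 x := by
    have hc : Continuous fun y : Tri => y - x := continuous_id.sub continuous_const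
    apply hc.continuousAt.preimage_mem_nhds
    rw [sub_self]
    exact hB
  have h2 := hx h1
  rw [Filter.mem_map] at h2
  obtain ⟨v, hv⟩ := (f.neBot.nonempty_of_mem h2)
  have hv' : inc v - x ∈ B ∅ := hv
  have h3 := (B ∅).sub_mem (inc_mem_B v) hv'
  rwa [sub_sub_cancel] at h3

theorem compact (t : TopologicalSpace Tri) (ht : @IsTopologicalRing Tri t _)
    (hB : (B ∅ : Set Tri) ∈ @nhds Tri t 0) (hd : t ≠ ⊥)
    (hc : IsCompleteRingTopology t) : @CompactSpace V (TopologicalSpace.induced inc t) := by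
  letI := t
  letI tV : TopologicalSpace V := TopologicalSpace.induced inc t
  have hind : Topology.IsInducing inc := ⟨rfl⟩
  refine ⟨isCompact_iff_ultrafilter_le_nhds.2 fun f _ => ?_⟩
  have hne : (Filter.map inc (f : Filter V)).NeBot := Filter.map_neBot
  obtain ⟨x, hx⟩ := hc (Filter.map inc (f : Filter V)) hne (ultra_small t ht hB hd f)
  have hx0 := limit_mem t ht hB f x hx
  refine ⟨x.v, trivial, ?_⟩
  rw [hind.nhds_eq_comap, ← Filter.map_le_iff_le_comap, ← eq_inc_of_mem hx0]
  exact hx

theorem not_complete (t : TopologicalSpace Tri) (ht : @IsTopologicalRing Tri t _)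
    (hB : (B ∅ : Set Tri) ∈ @nhds Tri t 0) (hT : @T2Space Tri t) (hd : t ≠ ⊥) :
    ¬ IsCompleteRingTopology t := by
  intro hc
  apply hd
  apply eq_bot_of_mem t ht
  have hcomp := compact t ht hB hd hc
  letI := t
  letI tV : TopologicalSpace V := TopologicalSpace.induced inc t
  have hind : Topology.IsInducing inc := ⟨rfl⟩
  have hinj : Function.Injective inc := fun v w h => congrArg Tri.v h
  haveI : T2Space V := T2Space.of_injective_continuous hinj hind.continuous
  haveI : CompactSpace V := hcomp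
  haveI : Nonempty V := ⟨0⟩
  obtain ⟨v, hv⟩ : ∃ v : V, (interior ({v} : Set V)).Nonempty := by
    apply nonempty_interior_of_iUnion_of_closed (f := fun v : V => ({v} : Set V))
    · intro v; exact isClosed_singleton
    · exact Set.iUnion_of_singleton V
  have hvn : ({v} : Set V) ∈ 𝓝 v := by
    obtain ⟨w, hw⟩ := hv
    have hw' : w ∈ ({v} : Set V) := interior_subset hw
    rw [Set.mem_singleton_iff] at hw'
    subst hw'
    exact mem_interior_iff_mem_nhds.1 hw
  rw [hind.nhds_eq_comap, Filter.mem_comap] at hvn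
  obtain ⟨U, hU, hUv⟩ := hvn
  have h1 : (fun x : Tri => inc v + x) ⁻¹' U ∈ 𝓝 (0 : Tri) := by
    have hc : Continuous fun x : Tri => inc v + x := continuous_const.add continuous_id
    apply hc.continuousAt.preimage_mem_nhds
    rw [add_zero]
    exact hU
  filter_upwards [h1, hB] with x hx1 hx2
  have hx : x = inc x.v := eq_inc_of_mem hx2
  have hx3 : v + x.v ∈ ({v} : Set V) := by
    apply hUv
    show inc (v + x.v) ∈ U
    rw [inc_add, ← hx]
    exact hx1
  have hx4 : x.v = 0 := by
    have h6 : v + x.v = v := hx3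
    exact add_eq_left.1 h6
  show x = 0
  rw [hx, hx4]; rfl

/-- **Main theorem**: there are a ring `R` and a maximal ring topology `t` on `R` such that
`(R, t)` is not complete. -/
theorem result : ∃ (R : Type) (_ : Ring R) (t : TopologicalSpace R),
    IsMaximalRingTopology t ∧ ¬ IsCompleteRingTopology t := by
  obtain ⟨t, htle, htm⟩ := exists_maximal basis.topology
    basis.toRingFilterBasis.isTopologicalRing t2_top not_bot
  refine ⟨Tri, inferInstance, t, htm, ?_⟩
  refine not_complete t (isTopologicalRing t htm.1) ?_ htm.2.1 htm.2.2.1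
  exact nhds_mono htle (basis.hasBasis_nhds_zero.mem_of_mem trivial)

end Pool.Agent.Results.MP_4aedba_al.NonCompleteMaximal
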